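import Pool.Agent.helper55.VQ.SpecD
import Pool.Agent.helper89.VQ.VSA
import Pool.Agent.helper68.VQ.VTN

/-!
# MP_07c750_an, project VQ, row EDS: short times
-/

set_option autoImplicit false

open scoped MatrixGroups ContDiff Topology UpperHalfPlane ComplexConjugate ENNReal
open UpperHalfPlane MeasureTheory Filter Set

namespace Pool.Agent.VQ

open Pool.Agent.RS
open Pool.Agent.RPQ (CEig mean VV IsOp)

noncomputable section

section abstract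

variable {X : Type} [MeasurableSpace X] (μ : Measure X) {f g : X → ℂ}

theorem EDS_mul (mf : AEStronglyMeasurable f μ) (mg : AEStronglyMeasurable g μ)
    (hf : Integrable (fun x => ‖f x‖ ^ 2) μ) (hg : Integrable (fun x => ‖g x‖ ^ 2) μ) :
    Integrable (fun x => ‖f x‖ * ‖g x‖) μ := by
  refine Integrable.mono' ((hf.add hg).div_const 2) (mf.norm.mul mg.norm) (Eventually.of_forall fun x => ?_)
  rw [Real.norm_of_nonneg (by positivity)]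
  show ‖f x‖ * ‖g x‖ ≤ (‖f x‖ ^ 2 + ‖g x‖ ^ 2) / 2
  nlinarith [sq_nonneg (‖f x‖ - ‖g x‖)]

theorem EDS_mulC (mf : AEStronglyMeasurable f μ) (mg : AEStronglyMeasurable g μ)
    (hf : Integrable (fun x => ‖f x‖ ^ 2) μ) (hg : Integrable (fun x => ‖g x‖ ^ 2) μ) :
    Integrable (fun x => f x * conj (g x)) μ := by
  refine Integrable.mono' (EDS_mul μ mf mg hf hg) (mf.mul (Complex.continuous_conj.comp_aestronglyMeasurable mg))
    (Eventually.of_forall fun x => ?_)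
  rw [norm_mul, RCLike.norm_conj]

theorem EDS_cs (mf : AEStronglyMeasurable f μ) (mg : AEStronglyMeasurable g μ)
    (hf : Integrable (fun x => ‖f x‖ ^ 2) μ) (hg : Integrable (fun x => ‖g x‖ ^ 2) μ) :
    ‖∫ x, f x * conj (g x) ∂μ‖ ≤ Real.sqrt (∫ x, ‖f x‖ ^ 2 ∂μ) * Real.sqrt (∫ x, ‖g x‖ ^ 2 ∂μ) := by
  refine (norm_integral_le_of_norm_le (EDS_mul μ mf mg hf hg) (Eventually.of_forall fun x => ?_)).trans
    (VSA_cs μ _ _ hf hg (EDS_mul μ mf mg hf hg))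
  rw [norm_mul, RCLike.norm_conj]

theorem EDS_sub (mf : AEStronglyMeasurable f μ) (mg : AEStronglyMeasurable g μ)
    (hf : Integrable (fun x => ‖f x‖ ^ 2) μ) (hg : Integrable (fun x => ‖g x‖ ^ 2) μ) :
    Integrable (fun x => ‖f x - g x‖ ^ 2) μ := by
  refine Integrable.mono' ((hf.add hg).const_mul 2) ((mf.sub mg).norm.pow 2) (Eventually.of_forall fun x => ?_)
  rw [Real.norm_of_nonneg (by positivity)]
  show ‖f x - g x‖ ^ 2 ≤ 2 * (‖f x‖ ^ 2 + ‖g x‖ ^ 2)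
  have h1 := norm_sub_le (f x) (g x)
  have h2 := norm_nonneg (f x - g x)
  nlinarith [sq_nonneg (‖f x‖ - ‖g x‖), pow_le_pow_left₀ h2 h1 2]

theorem EDS_mink (mf : AEStronglyMeasurable f μ) (mg : AEStronglyMeasurable g μ)
    (hf : Integrable (fun x => ‖f x‖ ^ 2) μ) (hg : Integrable (fun x => ‖g x‖ ^ 2) μ) :
    Real.sqrt (∫ x, ‖g x‖ ^ 2 ∂μ) ≤ Real.sqrt (∫ x, ‖f x‖ ^ 2 ∂μ) + Real.sqrt (∫ x, ‖f x - g x‖ ^ 2 ∂μ) := by
  have hd := EDS_sub μ mf mg hf hg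
  have hn1 : 0 ≤ ∫ x, ‖f x‖ ^ 2 ∂μ := integral_nonneg (fun z => by positivity)
  have hn2 : 0 ≤ ∫ x, ‖f x - g x‖ ^ 2 ∂μ := integral_nonneg (fun z => by positivity)
  apply Real.sqrt_le_iff.mpr
  refine ⟨by positivity, ?_⟩
  have i3 := EDS_mul μ mf (mf.sub mg) hf hd
  have h1 : ∫ x, ‖g x‖ ^ 2 ∂μ ≤ ∫ x, (‖f x‖ ^ 2 + (2 * (‖f x‖ * ‖f x - g x‖) + ‖f x - g x‖ ^ 2)) ∂μ := by
    refine integral_mono hg (hf.add ((i3.const_mul 2).add hd)) (fun z => ?_)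
    show ‖g z‖ ^ 2 ≤ ‖f z‖ ^ 2 + (2 * (‖f z‖ * ‖f z - g z‖) + ‖f z - g z‖ ^ 2)
    have h2 : ‖g z‖ ≤ ‖f z‖ + ‖f z - g z‖ := by
      have e : g z = f z - (f z - g z) := by ring
      calc ‖g z‖ = ‖f z - (f z - g z)‖ := by rw [← e]
        _ ≤ _ := norm_sub_le _ _
    have h3 := norm_nonneg (g z)
    nlinarith [pow_le_pow_left₀ h3 h2 2]
  have j1 : Integrable (fun z => 2 * (‖f z‖ * ‖f z - g z‖)) μ := i3.const_mul 2
  have j2 : Integrable (fun z => 2 * (‖f z‖ * ‖f z - g z‖) + ‖f z - g z‖ ^ 2) μ := j1.add hd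
  rw [integral_add hf j2, integral_add j1 hd, integral_const_mul] at h1
  have h4 := VSA_cs μ (fun x => ‖f x‖) (fun x => ‖f x - g x‖) hf hd i3
  have h5 := Real.sq_sqrt hn1
  have h6 := Real.sq_sqrt hn2
  nlinarith

theorem EDS_eta (mf : AEStronglyMeasurable f μ) (mg : AEStronglyMeasurable g μ)
    (hf : Integrable (fun x => ‖f x‖ ^ 2) μ) (hg : Integrable (fun x => ‖g x‖ ^ 2) μ) {η : X → ℝ} (mη : AEStronglyMeasurable η μ)
    (hη : ∀ x, 0 ≤ η x ∧ η x ≤ 1) :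
    |(∫ x, η x * ‖f x‖ ^ 2 ∂μ) - ∫ x, η x * ‖g x‖ ^ 2 ∂μ| ≤
      Real.sqrt (∫ x, ‖f x - g x‖ ^ 2 ∂μ) * (Real.sqrt (∫ x, ‖f x‖ ^ 2 ∂μ) + Real.sqrt (∫ x, ‖g x‖ ^ 2 ∂μ)) := by
  have hd := EDS_sub μ mf mg hf hg
  have i1 : Integrable (fun x => η x * ‖f x‖ ^ 2) μ := by
    refine Integrable.mono' hf (mη.mul (mf.norm.pow 2)) (Eventually.of_forall fun x => ?_)
    rw [norm_mul, Real.norm_of_nonneg (hη x).1, Real.norm_of_nonneg (by positivity : (0 : ℝ) ≤ ‖f x‖ ^ 2)]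
    exact mul_le_of_le_one_left (by positivity) (hη x).2
  have i2 : Integrable (fun x => η x * ‖g x‖ ^ 2) μ := by
    refine Integrable.mono' hg (mη.mul (mg.norm.pow 2)) (Eventually.of_forall fun x => ?_)
    rw [norm_mul, Real.norm_of_nonneg (hη x).1, Real.norm_of_nonneg (by positivity : (0 : ℝ) ≤ ‖g x‖ ^ 2)]
    exact mul_le_of_le_one_left (by positivity) (hη x).2
  have i3 := EDS_mul μ (mf.sub mg) mf hd hf
  have i4 := EDS_mul μ (mf.sub mg) mg hd hg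
  rw [← integral_sub i1 i2, ← Real.norm_eq_abs]
  refine (norm_integral_le_of_norm_le (i3.add i4) (Eventually.of_forall fun x => ?_)).trans ?_
  · show ‖η x * ‖f x‖ ^ 2 - η x * ‖g x‖ ^ 2‖ ≤ ‖f x - g x‖ * ‖f x‖ + ‖f x - g x‖ * ‖g x‖
    have e1 : η x * ‖f x‖ ^ 2 - η x * ‖g x‖ ^ 2 = η x * ((‖f x‖ - ‖g x‖) * (‖f x‖ + ‖g x‖)) := by ring
    rw [e1, norm_mul, norm_mul, Real.norm_of_nonneg (hη x).1, Real.norm_of_nonneg (by positivity : (0 : ℝ) ≤ ‖f x‖ + ‖g x‖),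
      Real.norm_eq_abs]
    have e2 := abs_norm_sub_norm_le (f x) (g x)
    have e3 : |‖f x‖ - ‖g x‖| * (‖f x‖ + ‖g x‖) ≤ ‖f x - g x‖ * (‖f x‖ + ‖g x‖) :=
      mul_le_mul_of_nonneg_right e2 (by positivity)
    have e4 : η x * (|‖f x‖ - ‖g x‖| * (‖f x‖ + ‖g x‖)) ≤ |‖f x‖ - ‖g x‖| * (‖f x‖ + ‖g x‖) :=
      mul_le_of_le_one_left (by positivity) (hη x).2
    linarith
  · have e5 : ∫ x, (‖f x - g x‖ * ‖f x‖ + ‖f x - g x‖ * ‖g x‖) ∂μ =
        (∫ x, ‖f x - g x‖ * ‖f x‖ ∂μ) + ∫ x, ‖f x - g x‖ * ‖g x‖ ∂μ := integral_add i3 i4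
    have e6 := VSA_cs μ (fun x => ‖f x - g x‖) (fun x => ‖f x‖) hd hf i3
    have e7 := VSA_cs μ (fun x => ‖f x - g x‖) (fun x => ‖g x‖) hd hg i4
    show ∫ x, (‖f x - g x‖ * ‖f x‖ + ‖f x - g x‖ * ‖g x‖) ∂μ ≤ _
    rw [e5, mul_add]
    exact add_le_add e6 e7

end abstract

theorem EDS_num1 {n x y δ e Z nψ : ℝ} (hn : 0 ≤ n) (hx : 0 ≤ x) (hy : 0 ≤ y) (hδ : 0 ≤ δ) (hδe : δ ≤ e) (he : e ≤ 1 / 100)
    (h1 : (1 - δ) * n ^ 2 ≤ y ^ 2) (h2 : y ≤ x + e * n) (h3 : x ≤ (1 + δ) * n) (hZ : Z = nψ - 2 * x ^ 2 + n ^ 2)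
    (h4 : nψ ≤ (1 + δ) ^ 2 * x ^ 2) : Z ≤ 16 * e * n ^ 2 := by
  have h5 : (1 - δ) * n ≤ y := by
    by_contra hcon
    rw [not_le] at hcon
    have h6 : y * y < ((1 - δ) * n) * ((1 - δ) * n) := mul_self_lt_mul_self hy hcon
    have h7 : ((1 - δ) * n) * ((1 - δ) * n) ≤ (1 - δ) * n ^ 2 := by
      have : 0 ≤ δ * (1 - δ) * n ^ 2 := by
        have : 0 ≤ 1 - δ := by linarith
        positivity
      nlinarith
    nlinarith
  have h8 : (1 - δ - e) * n ≤ x := by nlinarith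
  have h9 : 0 ≤ (1 - δ - e) * n := mul_nonneg (by linarith) hn
  have h10 : ((1 - δ - e) * n) ^ 2 ≤ x ^ 2 := pow_le_pow_left₀ h9 h8 2
  have h11 : (1 - 2 * (δ + e)) * n ^ 2 ≤ ((1 - δ - e) * n) ^ 2 := by
    have : 0 ≤ (δ + e) ^ 2 * n ^ 2 := by positivity
    nlinarith
  have h12 : x ^ 2 ≤ ((1 + δ) * n) ^ 2 := pow_le_pow_left₀ hx h3 2
  have h13 : ((1 + δ) * n) ^ 2 ≤ 4 * n ^ 2 := by
    have : (1 + δ) ^ 2 ≤ 4 := by nlinarith
    rw [mul_pow]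
    exact mul_le_mul_of_nonneg_right this (sq_nonneg n)
  have h14 : x ^ 2 ≤ 4 * n ^ 2 := h12.trans h13
  have h15 : nψ ≤ x ^ 2 + 3 * δ * x ^ 2 := by
    have : (1 + δ) ^ 2 ≤ 1 + 3 * δ := by nlinarith
    have := mul_le_mul_of_nonneg_right this (sq_nonneg x)
    nlinarith
  have h16 : 3 * δ * x ^ 2 ≤ 3 * δ * (4 * n ^ 2) := mul_le_mul_of_nonneg_left h14 (by positivity)
  have h17 : δ * n ^ 2 ≤ e * n ^ 2 := mul_le_mul_of_nonneg_right hδe (sq_nonneg n)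
  rw [hZ]
  nlinarith

/-- the numbers -/
theorem EDS_num2 : ∃ R1 : ℝ, 17 ^ 8 ≤ R1 ∧ ∀ R : ℝ, R1 ≤ R → R ^ (-(1 / 120) : ℝ) ≤ 1 / 100 ∧ R ^ (-(1 / 4) : ℝ) ≤ R ^ (-(1 / 120) : ℝ) ∧
    7 * R ^ (-(1 / 240) : ℝ) ≤ R ^ (-(1 / 250) : ℝ) ∧ R ^ (-(1 / 120) : ℝ) ≤ R ^ (-(1 / 240) : ℝ) ∧ R ^ (-(1 / 12) : ℝ) ≤ R ^ (-(1 / 240) : ℝ) := by
  obtain ⟨Ra, hRa⟩ := eventually_atTop.1 ((tendsto_rpow_atTop (by norm_num : (0 : ℝ) < 1 / 6000)).eventually_ge_atTop 7)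
  obtain ⟨Rb, hRb⟩ := eventually_atTop.1 ((tendsto_rpow_atTop (by norm_num : (0 : ℝ) < 1 / 120)).eventually_ge_atTop 100)
  refine ⟨max (17 ^ 8) (max Ra Rb), le_max_left _ _, fun R hR => ?_⟩
  have h17 : (17 : ℝ) ^ 8 ≤ R := (le_max_left _ _).trans hR
  have h1 : 1 ≤ R := le_trans (by norm_num) h17
  have h0 : 0 < R := by linarith
  have ha := hRa R ((le_max_left _ _).trans ((le_max_right _ _).trans hR))
  have hb := hRb R ((le_max_right _ _).trans ((le_max_right _ _).trans hR))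
  refine ⟨?_, Real.rpow_le_rpow_of_exponent_le h1 (by norm_num), ?_, Real.rpow_le_rpow_of_exponent_le h1 (by norm_num),
    Real.rpow_le_rpow_of_exponent_le h1 (by norm_num)⟩
  · rw [Real.rpow_neg h0.le, inv_eq_one_div]
    exact one_div_le_one_div_of_le (by norm_num) hb
  · have e1 : R ^ (-(1 / 250) : ℝ) = R ^ (1 / 6000 : ℝ) * R ^ (-(1 / 240) : ℝ) := by
      rw [← Real.rpow_add h0]; norm_num
    rw [e1]
    exact mul_le_mul_of_nonneg_right ha (Real.rpow_nonneg h0.le _)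

theorem EDS_sqrt {R a L N : ℝ} (hR : 0 < R) (hL : 0 ≤ L) : Real.sqrt (L ^ 2 * R ^ (2 * a) * N) = L * R ^ a * Real.sqrt N := by
  have h1 : L ^ 2 * R ^ (2 * a) = (L * R ^ a) ^ 2 := by
    rw [mul_pow, ← Real.rpow_natCast (R ^ a), ← Real.rpow_mul hR.le]
    congr 2
    push_cast
    ring
  rw [h1, Real.sqrt_mul (sq_nonneg _), Real.sqrt_sq (mul_nonneg hL (Real.rpow_nonneg hR.le _))]

/-- the distance of two functions on `ℍ` -/
theorem EDS_dist {Γ : Subgroup SL(2, ℝ)} {F : Set ℍ} (hD : Dm Γ F) {φ ψ : ℍ → ℂ} (hφ : FH Γ F φ) (hψ : FH Γ F ψ) {c : ℝ}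
    (h : ∫ z in F, φ z * conj (ψ z) = ((c : ℝ) : ℂ)) : nn F (fun z => φ z - ψ z) = nn F ψ - 2 * c + nn F φ := by
  have i1 := VSA_isq hD hψ
  have i2 := VSA_isq hD hφ
  have i3 : IntegrableOn (fun z => φ z * conj (ψ z)) F :=
    EDS_mulC (volume.restrict F) hφ.cont.aestronglyMeasurable hψ.cont.aestronglyMeasurable i2 i1
  have i4 : IntegrableOn (fun z => (φ z * conj (ψ z)).re) F := i3.re
  have f3 : ∫ z in F, (φ z * conj (ψ z)).re = c := by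
    have := integral_re i3
    simp only [RCLike.re_eq_complex_re] at this
    rw [this, h, Complex.ofReal_re]
  have g1 : ∀ z, ‖φ z - ψ z‖ ^ 2 = ‖ψ z‖ ^ 2 - 2 * (φ z * conj (ψ z)).re + ‖φ z‖ ^ 2 := by
    intro z
    rw [← Complex.normSq_eq_norm_sq, ← Complex.normSq_eq_norm_sq, ← Complex.normSq_eq_norm_sq, Complex.normSq_sub]
    ring
  have g2 := integral_add (i1.sub (i4.const_mul 2)) i2
  have g3 := integral_sub i1 (i4.const_mul 2)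
  have g4 := integral_const_mul (μ := volume.restrict F) 2 (fun z => (φ z * conj (ψ z)).re)
  simp only [Pi.sub_apply] at g2 g3
  rw [g3, g4, f3] at g2
  rw [nn, nn, nn, ← g2]
  simp only [g1]

theorem EDS_proof (hEDT : EDT_stmt) (hEDF : EDF_stmt) (hEDW : EDW_stmt) (hEDH : EDH_stmt) (hVSA : VSA_stmt) (hVFR : VFR_stmt)
    (hVFM : VFM_stmt) (hVUB : VUB_stmt) (hHFA : HFA_stmt) : EDS_stmt := by
  have _ := hHFA
  obtain ⟨CT, hCT, HT⟩ := hEDT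
  obtain ⟨CF, hCF, HF⟩ := hEDF
  obtain ⟨CW, hCW, HW⟩ := hEDW
  obtain ⟨CA, hCA, HA⟩ := hVSA
  obtain ⟨CM, hCM, HM⟩ := hVFM
  obtain ⟨RH, hRH, HH⟩ := hEDH
  refine ⟨CT + CF + CW + CA + 4 * CM, by linarith, ?_⟩
  intro ch B A hch hA
  have hAT : Adm CT A := Adm_mono hA hCT (by linarith)
  have hAF : Adm CF A := Adm_mono hA hCF (by linarith)
  have hAW : Adm CW A := Adm_mono hA hCW (by linarith)
  have hAA : Adm CA A := Adm_mono hA hCA (by linarith)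
  have hAM : Adm (4 * CM) A := Adm_mono hA (by linarith) (by linarith)
  obtain ⟨-, -, -, -, -, -, hRgA⟩ := Adm_small hAA hCA
  obtain ⟨z0, z01, -, ez, -, -, m0, -, -, m1, m2⟩ := Adm_small hAM (by linarith)
  have hz1 : 0 < A.z1 := lt_of_lt_of_le z0 z01
  have hRgM : Rg CM A.e3 A.z A.z1 := ⟨m0, z0, z01, by nlinarith, by nlinarith⟩
  have hη0 : 0 < CM * A.z1 := by positivity
  have hη4 : CM * A.z1 ≤ 1 / 4 := by linarith
  obtain ⟨R1, hR1, HT1⟩ := HT ch B A hch hAT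
  obtain ⟨R2, hR2, HF1⟩ := HF ch B A hch hAF
  obtain ⟨R3, hR3, HW1⟩ := HW ch B A hch hAW
  obtain ⟨R4, hR4, HA1⟩ := HA ch A.e3 A.z A.z1 B hch hRgA
  obtain ⟨R5, hR5, HM1⟩ := HM ch 0 A.e3 A.z A.z1 B hch hRgM
  obtain ⟨R6, hR6, HN⟩ := EDS_num2
  refine ⟨max (max (max R1 R2) (max R3 R4)) (max (max R5 R6) RH),
    hR1.trans ((le_max_left _ _).trans ((le_max_left _ _).trans (le_max_left _ _))), ?_⟩
  intro R δ s L Γ F D f F' μ φ h hR hS hNF hOK hδ hEg hh hh1 hL hLip hs0 hs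
  have k1 : R1 ≤ R := (le_max_left _ _).trans ((le_max_left _ _).trans ((le_max_left _ _).trans hR))
  have k2 : R2 ≤ R := (le_max_right _ _).trans ((le_max_left _ _).trans ((le_max_left _ _).trans hR))
  have k3 : R3 ≤ R := (le_max_left _ _).trans ((le_max_right _ _).trans ((le_max_left _ _).trans hR))
  have k4 : R4 ≤ R := (le_max_right _ _).trans ((le_max_right _ _).trans ((le_max_left _ _).trans hR))
  have k5 : R5 ≤ R := (le_max_left _ _).trans ((le_max_left _ _).trans ((le_max_right _ _).trans hR))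
  have k6 : R6 ≤ R := (le_max_right _ _).trans ((le_max_left _ _).trans ((le_max_right _ _).trans hR))
  have k7 : RH ≤ R := (le_max_right _ _).trans ((le_max_right _ _).trans hR)
  have h17 : (17 : ℝ) ^ 8 ≤ R := hR6.trans k6
  have hR0 : 0 < R := lt_of_lt_of_le (by norm_num) h17
  have hR1' : 1 ≤ R := le_trans (by norm_num) h17
  obtain ⟨hW, hη, -⟩ := VSA_num h17
  obtain ⟨n1, n2, n3, n4, n5⟩ := HN R k6
  have hDm : Dm Γ F := Or.inl ⟨hS, hNF⟩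
  have hPU : PU Γ D.U := (hVUB Γ δ B D.U hOK.pot hδ).1
  have hFH : FH Γ F φ := (HH Γ F D.U R f F' μ φ k7 hS hNF hPU hEg).1
  obtain ⟨w1, -, w3, w4, w5⟩ := HW1 R δ Γ F D f F' μ φ k3 hS hNF hOK hδ hEg
  have hs' : |s| ≤ A.e3 * Real.log R := by
    rw [abs_of_nonneg hs0]
    exact hs
  have hfam := (HM1 R δ s Γ D k5 hOK hδ hs').1
  obtain ⟨-, -, -, r4, r5, r6⟩ := hVFR Γ F δ B D 0 (CM * A.z1) (R ^ (3 / 2 + CM * A.z1)) R s (pv D ch A.z A.z1 R s) hDm hOK hδ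
    hη0 hη4 (Real.rpow_nonneg hR0.le _) (hη _ hη4) hW hR1' hfam
  have hhφ : FH Γ F (fun z => ((h z : ℝ) : ℂ) * φ z) := by
    refine ⟨(Complex.continuous_ofReal.comp hh.1).mul hFH.cont, fun γ z => ?_, ?_⟩
    · show ((h (γ • z) : ℝ) : ℂ) * φ (γ • z) = _
      rw [hh.2 γ z, hFH.inv γ z]
    · obtain ⟨b, hb⟩ := hFH.supp
      refine ⟨b, fun z hz h0 => hb z hz (fun h1 => h0 ?_)⟩
      show ((h z : ℝ) : ℂ) * φ z = 0
      rw [h1, mul_zero]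
  have hP : FP Γ F (aF D R s (pv D ch A.z A.z1 R s) φ) := r5 φ hFH
  have hPh : FP Γ F (aF D R s (pv D ch A.z A.z1 R s) (fun z => ((h z : ℝ) : ℂ) * φ z)) := r5 _ hhφ
  have hψ : FH Γ F (sF D R s (pv D ch A.z A.z1 R s) (aF D R s (pv D ch A.z A.z1 R s) φ)) := r4 _ hP
  have dual1 := r6 φ _ hFH hP
  have dual2 := r6 _ _ hhφ hP
  have eT := HT1 R δ s Γ F D f F' μ φ k1 hS hNF hOK hδ hEg hs0 hs
  have eF := HF1 R δ s L Γ F D φ h k2 hDm hOK hδ hFH hh hL hLip hs0 hs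
  obtain ⟨a1, a2⟩ := HA1 R δ s Γ F D k4 hDm hOK hδ hs0 hs
  have a1' := a1 _ hP
  have a2' := a2 φ hFH
  have mθ : Measurable (thP D f R s) := VTN_thM hOK f hEg.sm.inv.1 R s
  have mη : Measurable (fun p : SL(2, ℝ) × ℝ => h (D.fl p.2 s p.1 • I)) := by
    have hU0 : ∀ z, D.U z ≠ 0 := fun z => by
      have := (hPU.bd z).1
      intro h0
      rw [h0] at this
      norm_num at this
    have g1 := VTN_meas hOK (fun z => h z / D.U z) (hh.1.div hPU.inv.1 hU0)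
    have g2 : (fun p : SL(2, ℝ) × ℝ => h (D.fl p.2 s p.1 • I)) =
        (fun x : (SL(2, ℝ) × ℝ) × ℝ => D.U (D.fl x.1.2 x.2 x.1.1 • I) * (h (D.fl x.1.2 x.2 x.1.1 • I) / D.U (D.fl x.1.2 x.2 x.1.1 • I))) ∘
          (fun p => (p, s)) := by
      funext p
      show h (D.fl p.2 s p.1 • I) = D.U (D.fl p.2 s p.1 • I) * (h (D.fl p.2 s p.1 • I) / D.U (D.fl p.2 s p.1 • I))
      rw [mul_div_cancel₀ _ (hU0 _)]
    rw [g2]
    exact g1.comp (measurable_id.prodMk measurable_const)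
  -- short names
  set P : SL(2, ℝ) × ℝ → ℂ := aF D R s (pv D ch A.z A.z1 R s) φ with hPdef
  set Ph : SL(2, ℝ) × ℝ → ℂ := aF D R s (pv D ch A.z A.z1 R s) (fun z => ((h z : ℝ) : ℂ) * φ z) with hPhdef
  set ψ : ℍ → ℂ := sF D R s (pv D ch A.z A.z1 R s) P with hψdef
  set Φ : SL(2, ℝ) × ℝ → ℂ := QF D.U ch A.z R φ with hΦdef
  set b : SL(2, ℝ) × ℝ → ℂ := fun p => Complex.exp (((thP D f R s p : ℝ) : ℂ) * Complex.I) * Φ p with hbdef
  set η : SL(2, ℝ) × ℝ → ℝ := fun p => h (D.fl p.2 s p.1 • I) with hηdef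
  set N : ℝ := nn F φ with hN
  have hN0 : 0 ≤ N := integral_nonneg (fun z => by positivity)
  have nb : ∀ p, ‖b p‖ = ‖Φ p‖ := by
    intro p
    rw [hbdef]
    show ‖Complex.exp (((thP D f R s p : ℝ) : ℂ) * Complex.I) * Φ p‖ = _
    rw [norm_mul, Complex.norm_exp_ofReal_mul_I, one_mul]
  have mb : Measurable b :=
    (Complex.measurable_exp.comp ((Complex.measurable_ofReal.comp mθ).mul_const _)).mul w1.meas
  have hF := hNF.meas
  have iP : Integrable (fun p => ‖P p‖ ^ 2) (mP.restrict (PW F 2 R)) := VQA_fp hF R hP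
  have iPh : Integrable (fun p => ‖Ph p‖ ^ 2) (mP.restrict (PW F 2 R)) := VQA_fp hF R hPh
  have iΦ : Integrable (fun p => ‖Φ p‖ ^ 2) (mP.restrict (PW F 2 R)) := VQA_fp hF R w1
  have ib : Integrable (fun p => ‖b p‖ ^ 2) (mP.restrict (PW F 2 R)) := by
    simp only [nb]
    exact iΦ
  have hη1 : ∀ p, 0 ≤ η p ∧ η p ≤ 1 := fun p => hh1 _
  have mηP : Measurable (fun p => ((η p : ℝ) : ℂ) * P p) := (Complex.measurable_ofReal.comp mη).mul hP.meas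
  have iηP : Integrable (fun p => ‖((η p : ℝ) : ℂ) * P p‖ ^ 2) (mP.restrict (PW F 2 R)) := by
    refine Integrable.mono' iP (mηP.norm.pow_const 2).aestronglyMeasurable (Eventually.of_forall fun p => ?_)
    rw [Real.norm_of_nonneg (by positivity), norm_mul, Complex.norm_real, Real.norm_of_nonneg (hη1 p).1, mul_pow]
    exact mul_le_of_le_one_left (by positivity) (pow_le_one₀ (hη1 p).1 (hη1 p).2)
  -- the numbers
  set x : ℝ := Real.sqrt (nP F 2 R P) with hx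
  set y : ℝ := Real.sqrt (nP F 2 R Φ) with hy
  set n : ℝ := Real.sqrt N with hn
  have hnP : 0 ≤ nP F 2 R P := integral_nonneg (fun z => by positivity)
  have hnΦ : 0 ≤ nP F 2 R Φ := integral_nonneg (fun z => by positivity)
  have hn0 : 0 ≤ n := Real.sqrt_nonneg _
  have hx0 : 0 ≤ x := Real.sqrt_nonneg _
  have hy0 : 0 ≤ y := Real.sqrt_nonneg _
  have hn2 : n ^ 2 = N := Real.sq_sqrt hN0
  have hx2 : x ^ 2 = nP F 2 R P := Real.sq_sqrt hnP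
  have hy2 : y ^ 2 = nP F 2 R Φ := Real.sq_sqrt hnΦ
  have hδ0 : 0 ≤ R ^ (-(1 / 4) : ℝ) := Real.rpow_nonneg hR0.le _
  have hxn : x ≤ (1 + R ^ (-(1 / 4) : ℝ)) * n := by
    have := Real.sqrt_le_sqrt a2'
    rwa [Real.sqrt_mul (sq_nonneg _), Real.sqrt_sq (by positivity)] at this
  have hyn : y ≤ n := Real.sqrt_le_sqrt w3
  have sT : Real.sqrt (∫ p in PW F 2 R, ‖P p - b p‖ ^ 2 ∂mP) ≤ R ^ (-(1 / 120) : ℝ) * n := by
    have e1 := Real.sqrt_le_sqrt eT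
    have e2 := EDS_sqrt (R := R) (a := -(1 / 120)) (L := 1) (N := N) hR0 zero_le_one
    rw [one_pow, one_mul, one_mul] at e2
    have e3 : (2 : ℝ) * (-(1 / 120)) = -(1 / 60) := by norm_num
    rw [e3] at e2
    rw [e2] at e1
    exact e1
  have sF' : Real.sqrt (∫ p in PW F 2 R, ‖Ph p - ((η p : ℝ) : ℂ) * P p‖ ^ 2 ∂mP) ≤ L * R ^ (-(1 / 12) : ℝ) * n := by
    have e1 := Real.sqrt_le_sqrt eF
    have e2 := EDS_sqrt (R := R) (a := -(1 / 12)) (L := L) (N := N) hR0 hL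
    have e3 : (2 : ℝ) * (-(1 / 12)) = -(1 / 6) := by norm_num
    rw [e3] at e2
    rw [e2] at e1
    exact e1
  have hyx : y ≤ x + R ^ (-(1 / 120) : ℝ) * n := by
    have e1 := EDS_mink (mP.restrict (PW F 2 R)) hP.meas.aestronglyMeasurable mb.aestronglyMeasurable iP ib
    simp only [nb] at e1
    have e2 : Real.sqrt (∫ p in PW F 2 R, ‖Φ p‖ ^ 2 ∂mP) = y := rfl
    have e3 : Real.sqrt (∫ p in PW F 2 R, ‖P p‖ ^ 2 ∂mP) = x := rfl
    rw [e2, e3] at e1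
    linarith
  -- first step
  have s1 : |(∫ p in PW F 2 R, η p * ‖Φ p‖ ^ 2 ∂mP) - ∫ p in PW F 2 R, η p * ‖P p‖ ^ 2 ∂mP| ≤ 3 * R ^ (-(1 / 120) : ℝ) * N := by
    have e1 := EDS_eta (mP.restrict (PW F 2 R)) hP.meas.aestronglyMeasurable mb.aestronglyMeasurable iP ib mη.aestronglyMeasurable hη1
    simp only [nb] at e1
    have e2 : Real.sqrt (∫ p in PW F 2 R, ‖Φ p‖ ^ 2 ∂mP) = y := rfl
    have e3 : Real.sqrt (∫ p in PW F 2 R, ‖P p‖ ^ 2 ∂mP) = x := rfl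
    rw [e2, e3] at e1
    rw [abs_sub_comm]
    have e4 : x + y ≤ 3 * n := by
      have : (1 + R ^ (-(1 / 4) : ℝ)) * n ≤ 2 * n := mul_le_mul_of_nonneg_right (by linarith) hn0
      linarith
    calc _ ≤ _ := e1
      _ ≤ (R ^ (-(1 / 120) : ℝ) * n) * (3 * n) := mul_le_mul sT e4 (by positivity) (by positivity)
      _ = 3 * R ^ (-(1 / 120) : ℝ) * N := by rw [← hn2]; ring
  -- second step
  have s2 : ‖(∫ p in PW F 2 R, Ph p * conj (P p) ∂mP) - ((∫ p in PW F 2 R, η p * ‖P p‖ ^ 2 ∂mP : ℝ) : ℂ)‖ ≤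
      2 * L * R ^ (-(1 / 12) : ℝ) * N := by
    have e1 : ((∫ p in PW F 2 R, η p * ‖P p‖ ^ 2 ∂mP : ℝ) : ℂ) = ∫ p in PW F 2 R, (((η p : ℝ) : ℂ) * P p) * conj (P p) ∂mP := by
      rw [← integral_complex_ofReal]
      congr 1
      funext p
      rw [mul_assoc, Complex.mul_conj, Complex.normSq_eq_norm_sq]
      push_cast
      ring
    have j1 := EDS_mulC (mP.restrict (PW F 2 R)) hPh.meas.aestronglyMeasurable hP.meas.aestronglyMeasurable iPh iP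
    have j2 := EDS_mulC (mP.restrict (PW F 2 R)) mηP.aestronglyMeasurable hP.meas.aestronglyMeasurable iηP iP
    rw [e1, ← integral_sub j1 j2]
    have e2 : (fun p => Ph p * conj (P p) - (((η p : ℝ) : ℂ) * P p) * conj (P p)) =
        fun p => (Ph p - ((η p : ℝ) : ℂ) * P p) * conj (P p) := by
      funext p
      ring
    rw [e2]
    have e3 := EDS_cs (mP.restrict (PW F 2 R)) (f := fun p => Ph p - ((η p : ℝ) : ℂ) * P p)
      (hPh.meas.sub mηP).aestronglyMeasurable hP.meas.aestronglyMeasurable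
      (EDS_sub (mP.restrict (PW F 2 R)) hPh.meas.aestronglyMeasurable mηP.aestronglyMeasurable iPh iηP) iP
    refine e3.trans ?_
    have e4 : Real.sqrt (∫ p in PW F 2 R, ‖P p‖ ^ 2 ∂mP) ≤ 2 * n := by
      have : (1 + R ^ (-(1 / 4) : ℝ)) * n ≤ 2 * n := mul_le_mul_of_nonneg_right (by linarith) hn0
      exact hxn.trans this
    calc _ ≤ (L * R ^ (-(1 / 12) : ℝ) * n) * (2 * n) := mul_le_mul sF' e4 (Real.sqrt_nonneg _) (by positivity)
      _ = 2 * L * R ^ (-(1 / 12) : ℝ) * N := by rw [← hn2]; ring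
  -- third step
  have hPP : ∫ z in F, φ z * conj (ψ z) = ((nP F 2 R P : ℝ) : ℂ) := by
    rw [hψdef, ← dual1, nP, ← integral_complex_ofReal]
    congr 1
    funext z
    rw [Complex.mul_conj, Complex.normSq_eq_norm_sq]
  have hZ := EDS_dist hDm hFH hψ hPP
  have s4 : nn F (fun z => φ z - ψ z) ≤ 16 * R ^ (-(1 / 120) : ℝ) * n ^ 2 := by
    refine EDS_num1 (n := n) (x := x) (y := y) (δ := R ^ (-(1 / 4) : ℝ)) (e := R ^ (-(1 / 120) : ℝ)) (nψ := nn F ψ) hn0 hx0 hy0 hδ0 n2 n1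
      ?_ hyx hxn ?_ ?_
    · rw [hn2, hy2]
      exact w4.trans w5
    · rw [hZ, hx2, hn2]
    · rw [hx2]
      exact a1'
  have s5 : Real.sqrt (nn F (fun z => φ z - ψ z)) ≤ 4 * R ^ (-(1 / 240) : ℝ) * n := by
    have e1 := Real.sqrt_le_sqrt s4
    have e2 := EDS_sqrt (R := R) (a := -(1 / 240)) (L := 4) (N := n ^ 2) hR0 (by norm_num)
    have e3 : (2 : ℝ) * (-(1 / 240)) = -(1 / 120) := by norm_num
    rw [e3, Real.sqrt_sq hn0] at e2
    norm_num at e2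
    rw [e2] at e1
    exact e1
  have s6 : ‖(∫ z in F, (((h z : ℝ) : ℂ) * φ z) * conj (ψ z)) - ((∫ z in F, h z * ‖φ z‖ ^ 2 : ℝ) : ℂ)‖ ≤
      4 * R ^ (-(1 / 240) : ℝ) * N := by
    have i2 := VSA_isq hDm hFH
    have i1 := VSA_isq hDm hψ
    have i0 := VSA_isq hDm hhφ
    have e1 : ((∫ z in F, h z * ‖φ z‖ ^ 2 : ℝ) : ℂ) = ∫ z in F, (((h z : ℝ) : ℂ) * φ z) * conj (φ z) := by
      rw [← integral_complex_ofReal]
      congr 1
      funext p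
      rw [mul_assoc, Complex.mul_conj, Complex.normSq_eq_norm_sq]
      push_cast
      ring
    have j1 := EDS_mulC (volume.restrict F) hhφ.cont.aestronglyMeasurable hψ.cont.aestronglyMeasurable i0 i1
    have j2 := EDS_mulC (volume.restrict F) hhφ.cont.aestronglyMeasurable hFH.cont.aestronglyMeasurable i0 i2
    rw [e1, norm_sub_rev, ← integral_sub j2 j1]
    have e2 : (fun z => ((h z : ℝ) : ℂ) * φ z * conj (φ z) - ((h z : ℝ) : ℂ) * φ z * conj (ψ z)) =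
        fun z => (((h z : ℝ) : ℂ) * φ z) * conj (φ z - ψ z) := by
      funext z
      rw [map_sub]
      ring
    rw [e2]
    have e3 := EDS_cs (volume.restrict F) (f := fun z => ((h z : ℝ) : ℂ) * φ z) (g := fun z => φ z - ψ z)
      hhφ.cont.aestronglyMeasurable (hFH.cont.sub hψ.cont).aestronglyMeasurable i0
      (EDS_sub (volume.restrict F) hFH.cont.aestronglyMeasurable hψ.cont.aestronglyMeasurable i2 i1)
    refine e3.trans ?_
    have e4 : Real.sqrt (∫ z in F, ‖((h z : ℝ) : ℂ) * φ z‖ ^ 2) ≤ n := by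
      refine Real.sqrt_le_sqrt (integral_mono i0 i2 fun z => ?_)
      show ‖((h z : ℝ) : ℂ) * φ z‖ ^ 2 ≤ ‖φ z‖ ^ 2
      rw [norm_mul, Complex.norm_real, Real.norm_of_nonneg (hh1 z).1, mul_pow]
      exact mul_le_of_le_one_left (by positivity) (pow_le_one₀ (hh1 z).1 (hh1 z).2)
    calc _ ≤ n * (4 * R ^ (-(1 / 240) : ℝ) * n) := mul_le_mul e4 s5 (Real.sqrt_nonneg _) hn0
      _ = 4 * R ^ (-(1 / 240) : ℝ) * N := by rw [← hn2]; ring
  -- conclusion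
  rw [← dual2] at s6
  have s7 : |(∫ p in PW F 2 R, η p * ‖P p‖ ^ 2 ∂mP) - ∫ z in F, h z * ‖φ z‖ ^ 2| ≤
      2 * L * R ^ (-(1 / 12) : ℝ) * N + 4 * R ^ (-(1 / 240) : ℝ) * N := by
    have e1 : ((((∫ p in PW F 2 R, η p * ‖P p‖ ^ 2 ∂mP) - ∫ z in F, h z * ‖φ z‖ ^ 2 : ℝ) : ℝ) : ℂ) =
        ((∫ p in PW F 2 R, Ph p * conj (P p) ∂mP) - ((∫ z in F, h z * ‖φ z‖ ^ 2 : ℝ) : ℂ)) -
        ((∫ p in PW F 2 R, Ph p * conj (P p) ∂mP) - ((∫ p in PW F 2 R, η p * ‖P p‖ ^ 2 ∂mP : ℝ) : ℂ)) := by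
      rw [Complex.ofReal_sub]
      ring
    rw [← Real.norm_eq_abs, ← Complex.norm_real, e1]
    refine (norm_sub_le _ _).trans ?_
    linarith
  have s8 := abs_sub_le (∫ p in PW F 2 R, η p * ‖Φ p‖ ^ 2 ∂mP) (∫ p in PW F 2 R, η p * ‖P p‖ ^ 2 ∂mP) (∫ z in F, h z * ‖φ z‖ ^ 2)
  have hr : 0 ≤ R ^ (-(1 / 240) : ℝ) := Real.rpow_nonneg hR0.le _
  have s9 : 3 * R ^ (-(1 / 120) : ℝ) + 2 * L * R ^ (-(1 / 12) : ℝ) + 4 * R ^ (-(1 / 240) : ℝ) ≤ (1 + L) * R ^ (-(1 / 250) : ℝ) := by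
    have e1 : L * R ^ (-(1 / 12) : ℝ) ≤ L * R ^ (-(1 / 240) : ℝ) := mul_le_mul_of_nonneg_left n5 hL
    have e2 : L * (7 * R ^ (-(1 / 240) : ℝ)) ≤ L * R ^ (-(1 / 250) : ℝ) := mul_le_mul_of_nonneg_left n3 hL
    have e3 : 0 ≤ L * R ^ (-(1 / 240) : ℝ) := mul_nonneg hL hr
    rw [add_mul, one_mul]
    linarith
  have s10 := mul_le_mul_of_nonneg_right s9 hN0
  refine (s8.trans (add_le_add s1 s7)).trans ?_
  refine le_trans (le_of_eq ?_) s10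
  ring

end

end Pool.Agent.VQ
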